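import Pool.Agent.W956.FF.ExpSize
import Pool.Agent.W956.KF.Explicit

set_option autoImplicit false

/-!
# Superlinear growth from lower bounds with the exponent of matrix multiplication
-/

namespace Pool.Agent.U28.FixedFactor

open Finset Module Filter Pool.Agent.H522R2 Pool.Agent.W956.FF
open Pool.Agent.W956.KF (growth sizeMM sizeMM_upper Superlinear superlinear_iff explicit_part)
open Pool.Agent.H515R2.MMR (Mat omega)

theorem superlinear_sizeMM_iff : Superlinear (sizeMM ℂ) ↔ 2 < omega := by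
  refine superlinear_iff (K := ℂ) (c := 2) (by norm_num) (fun m => ?_)
    (fun τ hτ => sizeMM_upper hτ)
  obtain ⟨h1, _, _, h4⟩ := explicit_part.1 m
  omega

theorem superlinear_of_two_lt {f : ℕ → ℕ} {c : ℝ} (hc : 0 < c)
    (hlow : ∀ n : ℕ, 1 ≤ n → (c * (n : ℝ)) ^ omega ≤ 2 * f n) (h : 2 < omega) :
    Superlinear f := by
  refine ⟨omega / 2, by linarith, c ^ omega / 2, by positivity, fun m => ?_⟩
  rcases Nat.eq_zero_or_pos m with hm | hm
  · subst hm
    rw [Nat.cast_zero, zero_pow two_ne_zero, Real.zero_rpow (by linarith), mul_zero]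
    exact Nat.cast_nonneg _
  · have hm0 : (0 : ℝ) < m := by exact_mod_cast hm
    have e1 : ((m : ℝ) ^ 2) ^ (omega / 2) = (m : ℝ) ^ omega := by
      rw [← Real.rpow_natCast (m : ℝ) 2, ← Real.rpow_mul hm0.le]
      congr 1
      push_cast
      ring
    have h1 := hlow m hm
    rw [Real.mul_rpow hc.le hm0.le] at h1
    rw [e1]
    linarith

theorem superlinear_equiv {f : ℕ → ℕ} {c : ℝ} (hc : 0 < c)
    (hlow : ∀ n : ℕ, 1 ≤ n → (c * (n : ℝ)) ^ omega ≤ 2 * f n) (hup : ∀ n, f n ≤ sizeMM ℂ n) :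
    Superlinear (sizeMM ℂ) ↔ Superlinear f := by
  constructor
  · intro h
    exact superlinear_of_two_lt hc hlow (superlinear_sizeMM_iff.1 h)
  · rintro ⟨α, hα, a, ha, h⟩
    exact ⟨α, hα, a, ha, fun m => (h m).trans (by exact_mod_cast hup m)⟩

/-- all consequences of lower bounds of the type of the theorem -/
theorem all_of_low {ε : ℝ} (hε : 0 < ε) {f d Q : ℕ → ℕ}
    (hdim : ∀ n : ℕ, (2 + ε) * (n : ℝ) ^ 2 + Q n ≤ d n)
    (hlow : ∀ n q : ℕ, 2 * n ^ 2 + 3 * q * n + Q n < d n → ((q : ℝ) + 1) ^ omega ≤ 2 * f n)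
    (hup : ∀ n, f n ≤ sizeMM ℂ n) :
    growth f = omega ∧ (∀ D τ : ℝ, {n : ℕ | (f n : ℝ) ≤ D * (n : ℝ) ^ τ}.Infinite → omega ≤ τ) ∧
      (Superlinear (sizeMM ℂ) ↔ Superlinear f) := by
  have h1 : ∀ n : ℕ, 1 ≤ n → (ε / 3 * (n : ℝ)) ^ omega ≤ 2 * f n :=
    fun n hn => eps_bound' hε hn (hdim n) fun q hq => hlow n q hq
  refine ⟨growth_of_bounds (c := ε / 3) (by positivity) h1 hup, fun D τ hinf => ?_,
    superlinear_equiv (c := ε / 3) (by positivity) h1 hup⟩
  refine omega_le_of_inf (c := ε / 3) (τ := τ) (D := D) (by positivity) fun N => ?_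
  obtain ⟨n, hn, hN⟩ := hinf.exists_gt (max N 1)
  exact ⟨n, (le_max_left _ _).trans hN.le, _, h1 n ((le_max_right _ _).trans hN.le), hn⟩

end Pool.Agent.U28.FixedFactor
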